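import Pool.Agent.H84.HullD

/-! Under MA and the failure of CH: `add(N) = cof(N)`, there is a monotone Borel hull operation
on the null sets, and there is none on the Lebesgue measurable sets. -/

namespace Pool.Agent.Results.MP_e5f4bd_lc.Yes

open Cardinal Pool.Agent.H84.MHull

theorem result (hMA : MA) (h : ℵ₁ < (𝔠 : Cardinal.{0})) :
    addN = cofN ∧ (∃ ψ, MonoHull Null ψ) ∧ ¬ ∃ ψ, MonoHull Leb ψ :=
  ⟨(add_cof hMA).1.trans (add_cof hMA).2.symm, null_hull hMA, no_hull hMA h⟩

end Pool.Agent.Results.MP_e5f4bd_lc.Yes
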